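import Mathlib
import Pool.Agent.Y734.M.StmsN

/-!
# Project Y734/N: quadratic integral points of `M_{0,n}` over number fields

Statements of the lemmas; `k` is a number field, and the points are defined over quadratic
extensions `L` of `k`.
-/

set_option autoImplicit false

namespace Pool.Agent.Y734.N

open NumberField Pool.Agent.Y734.M

/-- the family `u i j z ^ e i j` is contained in `G5 = 0` -/
def Fa {F : Type} [Field F] (u : Fin 5 → Fin 5 → F) (e : Fin 5 → Fin 5 → ℤ) : Prop :=
  ∀ z : F, z ≠ 0 → G5 (fun i j => u i j * z ^ e i j) = 0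

/-- the discriminant of the quadratic equation of the cross ratio of four points -/
def HN {F : Type} [Field F] {n : ℕ} (u : Fin n → Fin n → F) (i j k l : Fin n) : F :=
  (u i j * u k l) ^ 2 + (u i k * u j l) ^ 2 + (u i l * u j k) ^ 2 -
    2 * (u i j * u k l) * (u i k * u j l) - 2 * (u i k * u j l) * (u i l * u j k) -
    2 * (u i l * u j k) * (u i j * u k l)

/-- Euler's form of a quadrilateral -/
def EU {F : Type} [Field F] {n : ℕ} (u : Fin n → Fin n → F) (i j k l m : Fin n) : F :=
  u i j * u k m * u l m + u i k * u j m * u l m + u j l * u i m * u k m + u k l * u i m * u j m -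
    u i l * u j m * u k m - u j k * u i m * u l m

/-- The classification of the families for five points. -/
def P5Stmt : Prop :=
  ∀ (F : Type) [Field F] [CharZero F] (u : Fin 5 → Fin 5 → F) (e : Fin 5 → Fin 5 → ℤ), Sy u →
    (∀ i j, i ≠ j → u i j ≠ 0) → Sy e →
    Fa u e → Tri0 e ∨ ∃ σ : Equiv.Perm (Fin 5),
      (Ray rA (pull e σ) ∧ HN (pull u σ) 0 2 3 4 = 0) ∨
      ((Ray rB (pull e σ) ∨ Ray rC (pull e σ)) ∧ EU (pull u σ) 0 1 2 3 4 = 0)

/-- the norms of the determinants of the normalised vectors -/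
noncomputable def nu (k : Type) {L : Type} [Field k] [Field L] [Algebra k L] {n : ℕ}
    (P : Fin (n + 3) → Fin 2 → L) (i j : Fin (n + 3)) : k := Algebra.norm k (nw P i j)

/-- Job G5N. The norms of the determinants of five vectors satisfy the quintic equation. -/
def G5nStmt : Prop :=
  ∀ (k L : Type) [Field k] [CharZero k] [Field L] [Algebra k L], Module.finrank k L = 2 →
    ∀ P : Fin 5 → Fin 2 → L, G5 (fun i j => Algebra.norm k (dt (P i) (P j))) = 0

/-- Job SUN. Properties of the normalised determinants: five points satisfy the quintic equation,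
the norms are units outside `S`, and they are equal to one for the pairs `(0, i)` and `(1, 2)`. -/
def SunStmt : Prop :=
  ∀ (k L : Type) [Field k] [NumberField k] [Field L] [NumberField L] [Algebra k L] (S : Finset ℕ),
    Module.finrank k L = 2 → ∀ (n : ℕ) (P : Fin (n + 3) → Fin 2 → L), IP S P →
      Sy (nu k P) ∧ (∀ i j, i ≠ j → SU S (nu k P i j)) ∧ (∀ i, i ≠ 0 → nu k P 0 i = 1) ∧
      nu k P 1 2 = 1 ∧ ∀ f : Fin 5 → Fin (n + 3), Function.Injective f → G5 (pull (nu k P) f) = 0

/-- Job RAT. If the discriminant is zero, the cross ratio is in `k`. -/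
def RatStmt : Prop :=
  ∀ (k L : Type) [Field k] [CharZero k] [Field L] [Algebra k L], Module.finrank k L = 2 →
    ∀ (n : ℕ) (P : Fin (n + 3) → Fin 2 → L), Nd P → ∀ f : Fin 4 → Fin (n + 3),
      Function.Injective f → HN (nu k P) (f 0) (f 1) (f 2) (f 3) = 0 →
        ∃ q : k, cr P (f 0) (f 1) (f 2) (f 3) = algebraMap k L q

/-- Job EUL. Euler's identity. -/
def EulStmt : Prop :=
  ∀ (k L : Type) [Field k] [CharZero k] [Field L] [Algebra k L], Module.finrank k L = 2 →
    ∀ (n : ℕ) (P : Fin (n + 3) → Fin 2 → L), Nd P → ∀ f : Fin 5 → Fin (n + 3),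
      Function.Injective f → EU (nu k P) (f 0) (f 1) (f 2) (f 3) (f 4) = 0 →
        VV P (f 0) (f 1) (f 2) (f 3) (f 4)

/-- Job FINS. There are only finitely many points of `M_{0,n}` over quadratic extensions of `k` with
given norms. -/
def FinsStmt : Prop :=
  ∀ (k : Type) [Field k] [NumberField k] (n : ℕ) (a : Fin (n + 3) → Fin (n + 3) → k),
    Set.Finite {c : Fin (n + 3) → Fin (n + 3) → Fin (n + 3) → Fin (n + 3) → ℂ |
      ∃ (L : Type) (_ : Field L) (_ : NumberField L) (_ : Algebra k L)
        (P : Fin (n + 3) → Fin 2 → L) (φ : L →+* ℂ),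
        Module.finrank k L = 2 ∧ Nd P ∧ (∀ i j, i ≠ j → nu k P i j = a i j) ∧
          c = fun i j k l => φ (cr P i j k l)}

/-- Job TOR. A sequence of vectors of `S`-units with infinitely many different members: there are
exponents `α i`, not all zero, such that equations of degree at most `D` which hold for all members
also hold for `f i t z ^ (α i)`, for most `t`. -/
def TorStmt : Prop :=
  ∀ (k : Type) [Field k] [NumberField k] (S : Finset ℕ) (_ : ∀ p ∈ S, p.Prime) (m : ℕ)
    (f : Fin m → ℕ → k) (_ : ∀ i t, SU S (f i t))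
    (_ : Set.Infinite (Set.range fun t => fun i => f i t)) (D : ℕ),
    ∃ (U : Ultrafilter ℕ) (α : Fin m → ℤ), (∃ i, α i ≠ 0) ∧ (∀ i, (∀ t, f i t = 1) → α i = 0) ∧
      (∀ i j, (∀ t, f i t = f j t) → α i = α j) ∧
      ∀ F : MvPolynomial (Fin m) ℚ, F.totalDegree ≤ D →
        (∀ t, MvPolynomial.aeval (fun i => f i t) F = 0) →
          ∀ᶠ t in (U : Filter ℕ), ∀ z : k, z ≠ 0 →
            MvPolynomial.aeval (fun i => f i t * z ^ α i) F = 0

end Pool.Agent.Y734.N
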