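import Mathlib
import Pool.Agent.Y734.N.Stms

/-!
# Project Y734/N: quadratic integral points of `M_{0,n}` over number fields, statements, part 2
-/

set_option autoImplicit false

namespace Pool.Agent.Y734.N

open NumberField Pool.Agent.Y734.M

/-- Job SG. The group of `S`-units of a number field is contained in the division hull of a
finitely generated group. -/
def SgStmt : Prop :=
  ∀ (k : Type) [Field k] [NumberField k] (S : Finset ℕ) (_ : ∀ p ∈ S, p.Prime),
    ∃ Γ : Subgroup kˣ, Γ.FG ∧ ∀ a : kˣ, SU S (a : k) → ∃ m : ℕ, 0 < m ∧ a ^ m ∈ Γ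

end Pool.Agent.Y734.N
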