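import Mathlib
import Pool.Agent.Y734.M.Asm2
import Pool.Agent.Y734.N.Stms

/-!
# Project Y734/N: assembly
-/

set_option autoImplicit false

namespace Pool.Agent.Y734.N

open NumberField Filter Pool.Agent.Y734.M

/-- four of the points have a cross ratio in `k` -/
def RatCR (k : Type) {L : Type} [Field k] [Field L] [Algebra k L] {n : ℕ}
    (P : Fin n → Fin 2 → L) : Prop :=
  ∃ f : Fin 4 → Fin n, Function.Injective f ∧
    ∃ q : k, cr P (f 0) (f 1) (f 2) (f 3) = algebraMap k L q

/-- An integral point whose norms lie in a nontrivial family is exceptional. -/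
theorem exc_of (hp5 : P5Stmt) (hk6 : KsixStmt) (hk7 : KsevStmt) (hrat : RatStmt) (heul : EulStmt)
    (hinv : InvStmt) {k L : Type} [Field k] [CharZero k] [Field L] [Algebra k L]
    (hL : Module.finrank k L = 2) {n : ℕ}
    (hn : 2 ≤ n) {P : Fin (n + 3) → Fin 2 → L} (hP : Nd P) (hsy : Sy (nu k P))
    (hnz : ∀ i j, i ≠ j → nu k P i j ≠ 0) {e : Fin (n + 3) → Fin (n + 3) → ℤ} (hse : Sy e)
    (hfam : ∀ f : Fin 5 → Fin (n + 3), Function.Injective f → Fa (pull (nu k P) f) (pull e f))
    (hnt : ¬ Tri0 e) : (n + 3 = 5 ∧ RatCR k P) ∨ (n + 3 ≤ 6 ∧ InvP P) := by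
  have hchar : CharZero L := charZero_of_injective_algebraMap (algebraMap k L).injective
  have h5 : ∀ f : Fin 5 → Fin (n + 3), Function.Injective f →
      Tri0 (pull e f) ∨ ∃ σ : Equiv.Perm (Fin 5),
      (Ray rA (pull e (f ∘ σ)) ∧ HN (nu k P) ((f ∘ σ) 0) ((f ∘ σ) 2) ((f ∘ σ) 3) ((f ∘ σ) 4) = 0) ∨
      ((Ray rB (pull e (f ∘ σ)) ∨ Ray rC (pull e (f ∘ σ))) ∧
        EU (nu k P) ((f ∘ σ) 0) ((f ∘ σ) 1) ((f ∘ σ) 2) ((f ∘ σ) 3) ((f ∘ σ) 4) = 0) := by
    intro f hf
    exact hp5 k (pull (nu k P) f) (pull e f) (fun i j => hsy _ _)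
      (fun i j hij => hnz _ _ fun h => hij (hf h)) (fun i j => hse _ _) (hfam f hf)
  obtain rfl | rfl | h7 : n = 2 ∨ n = 3 ∨ 4 ≤ n := by omega
  · -- five points
    have hid : Function.Injective (id : Fin 5 → Fin 5) := fun _ _ h => h
    rcases h5 id hid with h | ⟨σ, ⟨-, h⟩ | ⟨-, h⟩⟩
    · exact absurd h hnt
    · refine Or.inl ⟨rfl, ![σ 0, σ 2, σ 3, σ 4], ?_, ?_⟩
      · have h1 : (![σ 0, σ 2, σ 3, σ 4] : Fin 4 → Fin 5) = σ ∘ ![0, 2, 3, 4] := by
          funext i; fin_cases i <;> rfl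
        rw [h1]
        refine σ.injective.comp ?_
        decide
      · have h1 : Function.Injective (![σ 0, σ 2, σ 3, σ 4] : Fin 4 → Fin 5) := by
          have h1 : (![σ 0, σ 2, σ 3, σ 4] : Fin 4 → Fin 5) = σ ∘ ![0, 2, 3, 4] := by
            funext i; fin_cases i <;> rfl
          rw [h1]
          refine σ.injective.comp ?_
          decide
        exact hrat k L hL 2 P hP _ h1 h
    · refine Or.inr ⟨by norm_num, ?_⟩
      have h1 := heul k L hL 2 P hP (fun i => σ i) σ.injective h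
      exact inv_five hinv hP (fun i => σ i) σ.injective h1
  · -- six points
    obtain ⟨g, hg, h1, h2⟩ := hk6 e
      (fun p => EU (nu k P) (p 0) (p 1) (p 2) (p 3) (p 4) = 0) hse hnt
      (fun p hp => by
        simp only [Matrix.cons_val_zero, Matrix.cons_val_one, Matrix.cons_val] at hp ⊢
        rw [← hp]
        unfold EU
        rw [hsy (p 3) (p 1), hsy (p 3) (p 2), hsy (p 1) (p 0), hsy (p 2) (p 0), hsy (p 3) (p 0)]
        ring)
      (fun p hp => by
        simp only [Matrix.cons_val_zero, Matrix.cons_val_one, Matrix.cons_val] at hp ⊢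
        rw [← hp]
        unfold EU
        rw [hsy (p 1) (p 0), hsy (p 3) (p 2)]
        ring)
      (fun f hf => by
        rcases h5 f hf with h | ⟨σ, h⟩
        · exact Or.inl h
        · refine Or.inr ⟨σ, ?_⟩
          rcases h with ⟨h, -⟩ | ⟨h, h'⟩
          · exact Or.inl h
          · exact Or.inr ⟨h, h'⟩)
    refine Or.inr ⟨by norm_num, ?_⟩
    have hi : Function.Injective (![0, 1, 2, 3, 4] : Fin 5 → Fin 6) := by decide
    have hi' : Function.Injective (![0, 1, 2, 3, 5] : Fin 5 → Fin 6) := by decide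
    have hV := heul k L hL 3 P hP (fun i => g (![0, 1, 2, 3, 4] i)) (hg.comp hi) h1
    have hV' := heul k L hL 3 P hP (fun i => g (![0, 1, 2, 3, 5] i)) (hg.comp hi') h2
    exact inv_six hinv hP g hg hV hV'
  · -- seven points
    exfalso
    apply hnt
    intro f hf
    obtain ⟨g, κ, hg, hk, hfg⟩ := ext_seven (by omega : 7 ≤ n + 3) f hf
    have h7 : Tri0 (pull e g) := by
      refine hk7 (pull e g) (fun i j => hse _ _) fun f' hf' => ?_
      rcases h5 (g ∘ f') (hg.comp hf') with h | ⟨σ, h⟩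
      · exact Or.inl h
      · refine Or.inr ⟨σ, ?_⟩
        rcases h with ⟨h, -⟩ | ⟨h | h, -⟩
        · exact Or.inl h
        · exact Or.inr (Or.inl h)
        · exact Or.inr (Or.inr h)
    have h8 := h7 κ hk
    simp only [pull] at h8
    rw [hfg 0, hfg 1, hfg 2, hfg 3]
    exact h8


/-- The finiteness theorem. -/
theorem main (htor : TorStmt) (hp5 : P5Stmt) (hk6 : KsixStmt) (hk7 : KsevStmt)
    (hsun : SunStmt) (hrat : RatStmt) (heul : EulStmt) (hinv : InvStmt) (hfins : FinsStmt)
    (k : Type) [Field k] [NumberField k] (S : Finset ℕ) (hS : ∀ p ∈ S, p.Prime) (n : ℕ)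
    (hn : 2 ≤ n) :
    Set.Finite {c : Fin (n + 3) → Fin (n + 3) → Fin (n + 3) → Fin (n + 3) → ℂ |
      ∃ (L : Type) (_ : Field L) (_ : NumberField L) (_ : Algebra k L)
        (P : Fin (n + 3) → Fin 2 → L) (φ : L →+* ℂ),
        Module.finrank k L = 2 ∧ IP S P ∧ ¬ ((n + 3 = 5 ∧ RatCR k P) ∨ (n + 3 ≤ 6 ∧ InvP P)) ∧
          c = fun i j k l => φ (cr P i j k l)} := by
  classical
  by_contra hinf
  have hinf' : Set.Infinite {c : Fin (n + 3) → Fin (n + 3) → Fin (n + 3) → Fin (n + 3) → ℂ |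
      ∃ (L : Type) (_ : Field L) (_ : NumberField L) (_ : Algebra k L)
        (P : Fin (n + 3) → Fin 2 → L) (φ : L →+* ℂ),
        Module.finrank k L = 2 ∧ IP S P ∧ ¬ ((n + 3 = 5 ∧ RatCR k P) ∨ (n + 3 ≤ 6 ∧ InvP P)) ∧
          c = fun i j k l => φ (cr P i j k l)} := hinf
  let s := hinf'.natEmbedding
  have hs := fun t => (s t).2
  simp only [Set.mem_ofPred_eq] at hs
  choose L iF iN iA P φ hL hIP hex hc using hs
  have hdat := fun t => hsun k (L t) S (hL t) n (P t) (hIP t)
  -- the units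
  set E : Fin (n + 3) × Fin (n + 3) ≃ Fin ((n + 3) * (n + 3)) := finProdFinEquiv with hE
  set F : Fin ((n + 3) * (n + 3)) → ℕ → k := fun κ t =>
    if (E.symm κ).1 = (E.symm κ).2 then 1 else nu k (P t) (E.symm κ).1 (E.symm κ).2 with hF
  have hFE : ∀ i j t, i ≠ j → F (E (i, j)) t = nu k (P t) i j := by
    intro i j t hij
    simp only [hF, Equiv.symm_apply_apply]
    rw [if_neg hij]
  have hFD : ∀ i t, F (E (i, i)) t = 1 := by
    intro i t
    simp [hF]
  have hSU : ∀ κ t, SU S (F κ t) := by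
    intro κ t
    simp only [hF]
    split_ifs with h
    · exact ⟨one_ne_zero, 0, by simpa using isIntegral_one, by simpa using isIntegral_one⟩
    · exact (hdat t).2.1 _ _ h
  have hrange : Set.Infinite (Set.range fun t => fun κ => F κ t) := by
    intro hfin
    have : Finite (Set.range fun t => fun κ => F κ t) := hfin
    obtain ⟨y, hy⟩ := Finite.exists_infinite_fiber
      (fun t : ℕ => (⟨fun κ => F κ t, ⟨t, rfl⟩⟩ : Set.range fun t => fun κ => F κ t))
    have hset : Set.Infinite ((fun t : ℕ => (⟨fun κ => F κ t, ⟨t, rfl⟩⟩ :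
        Set.range fun t => fun κ => F κ t)) ⁻¹' {y}) := Set.infinite_coe_iff.1 hy
    refine hset (Set.Finite.of_finite_image (f := fun t => ((s t : _) :
      Fin (n + 3) → Fin (n + 3) → Fin (n + 3) → Fin (n + 3) → ℂ))
        ((hfins k n fun i j => y.1 (E (i, j))).subset ?_) ?_)
    · rintro c ⟨t, ht, rfl⟩
      refine ⟨L t, iF t, iN t, iA t, P t, φ t, hL t, (hIP t).1, fun i j hij => ?_, hc t⟩
      rw [← hFE i j t hij]
      have h1 : (⟨fun κ => F κ t, ⟨t, rfl⟩⟩ : Set.range fun t => fun κ => F κ t) = y := ht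
      rw [← h1]
    · intro t _ t' _ htt
      exact s.injective (Subtype.ext htt)
  obtain ⟨U, α, hne, hα1, hα2, hα3⟩ := htor k S hS _ F hSU hrange 5
  set e : Fin (n + 3) → Fin (n + 3) → ℤ := fun i j => α (E (i, j)) with he
  have hse : Sy e := by
    intro i j
    refine hα2 _ _ fun t => ?_
    by_cases hij : i = j
    · rw [hij]
    · rw [hFE _ _ _ hij, hFE _ _ _ fun h => hij h.symm]
      exact (hdat t).1 _ _
  have h12 : (1 : Fin (n + 3)) ≠ 2 := by
    intro h
    have := congrArg Fin.val h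
    rw [Fin.val_one', Fin.val_two] at this
    rw [Nat.mod_eq_of_lt (by omega)] at this
    omega
  have he12 : e 1 2 = 0 := hα1 _ fun t => by rw [hFE _ _ _ h12, (hdat t).2.2.2.1]
  have he0 : ∀ i, i ≠ 0 → e 0 i = 0 := by
    intro i hi
    exact hα1 _ fun t => by rw [hFE _ _ _ (Ne.symm hi), (hdat t).2.2.1 i hi]
  have hed : ∀ i, e i i = 0 := fun i => hα1 _ fun t => hFD i t
  -- the families
  have hfam : ∀ f : Fin 5 → Fin (n + 3), Function.Injective f →
      ∀ᶠ t in (U : Filter ℕ), Fa (pull (nu k (P t)) f) (pull e f) := by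
    intro f hf
    have hev : ∀ (y : Fin ((n + 3) * (n + 3)) → k), MvPolynomial.aeval y
        (G5 (fun i j => (MvPolynomial.X (E (f i, f j)) :
          MvPolynomial (Fin ((n + 3) * (n + 3))) ℚ))) = G5 (fun i j => y (E (f i, f j))) := by
      intro y
      have h1 := G5_map (MvPolynomial.aeval y : MvPolynomial (Fin ((n + 3) * (n + 3))) ℚ →ₐ[ℚ]
        k).toRingHom (fun i j => (MvPolynomial.X (E (f i, f j)) :
          MvPolynomial (Fin ((n + 3) * (n + 3))) ℚ))
      refine h1.trans ?_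
      congr 1
      funext i j
      exact MvPolynomial.aeval_X _ _
    have h1 := hα3 _ (G5_homog (fun i j => E (f i, f j))).totalDegree_le (fun t => by
        rw [hev]
        rw [← (hdat t).2.2.2.2 f hf]
        exact G5_congr fun i j hij => hFE _ _ _ fun h => hij (hf h))
    filter_upwards [h1] with t ht z hz
    have h2 := ht z hz
    rw [hev] at h2
    rw [← h2]
    refine G5_congr fun i j hij => ?_
    simp only [pull, he]
    rw [hFE _ _ _ fun h => hij (hf h)]
  have hfam' : ∀ᶠ t in (U : Filter ℕ), ∀ f : Fin 5 → Fin (n + 3), Function.Injective f →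
      Fa (pull (nu k (P t)) f) (pull e f) := by
    rw [Filter.eventually_all]
    intro f
    by_cases hf : Function.Injective f
    · filter_upwards [hfam f hf] with t ht _ using ht
    · exact Filter.Eventually.of_forall fun t h => absurd h hf
  -- the weights are not trivial
  have hnt : ¬ Tri0 e := by
    intro hnt
    have h01 : (0 : Fin (n + 3)) ≠ 1 := by
      intro h
      have := congrArg Fin.val h
      rw [Fin.val_one', Fin.val_zero] at this
      rw [Nat.mod_eq_of_lt (by omega)] at this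
      omega
    have h02 : (0 : Fin (n + 3)) ≠ 2 := by
      intro h
      have := congrArg Fin.val h
      rw [Fin.val_two, Fin.val_zero] at this
      omega
    have key : ∀ a b c d : Fin (n + 3), a ≠ b → a ≠ c → a ≠ d → b ≠ c → b ≠ d → c ≠ d →
        e a b + e c d = e a c + e b d := fun a b c d h1 h2 h3 h4 h5 h6 =>
      hnt ![a, b, c, d] (inj4 a b c d h1 h2 h3 h4 h5 h6)
    have hA : ∀ i, i ≠ 0 → i ≠ 1 → i ≠ 2 → e 1 i = 0 ∧ e 2 i = 0 := by
      intro i h0 h1 h2
      have k1 := key 0 1 2 i h01 h02 (Ne.symm h0) h12 (Ne.symm h1) (Ne.symm h2)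
      have k2 := key 0 1 i 2 h01 (Ne.symm h0) h02 (Ne.symm h1) h12 h2
      have e1 := he0 1 (Ne.symm h01)
      have e2 := he0 2 (Ne.symm h02)
      have e3 := he0 i h0
      have e4 := hse i 2
      constructor <;> linarith
    have hA1 : ∀ j, j ≠ 0 → j ≠ 1 → e 1 j = 0 := by
      intro j h0 h1
      by_cases hj2 : j = 2
      · rw [hj2, he12]
      · exact (hA j h0 h1 hj2).1
    have hB : ∀ i j, i ≠ j → i ≠ 0 → j ≠ 0 → e i j = 0 := by
      intro i j hij hi hj
      by_cases hi1 : i = 1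
      · subst hi1
        exact hA1 j hj (Ne.symm hij)
      by_cases hj1 : j = 1
      · subst hj1
        rw [hse]
        exact hA1 i hi hi1
      have k1 := key 0 1 i j h01 (Ne.symm hi) (Ne.symm hj) (Ne.symm hi1) (Ne.symm hj1) hij
      have e1 := he0 1 (Ne.symm h01)
      have e3 := he0 i hi
      have e4 := hA1 j hj hj1
      linarith
    have hall : ∀ i j, e i j = 0 := by
      intro i j
      by_cases hij : i = j
      · rw [hij]; exact hed j
      by_cases hi : i = 0
      · subst hi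
        exact he0 j (Ne.symm hij)
      · by_cases hj : j = 0
        · subst hj
          rw [hse]
          exact he0 i hi
        · exact hB i j hij hi hj
    obtain ⟨κ, hκ⟩ := hne
    apply hκ
    have h1 := hall (E.symm κ).1 (E.symm κ).2
    simp only [he] at h1
    rwa [Prod.mk.eta, Equiv.apply_symm_apply] at h1
  obtain ⟨t, ht⟩ := hfam'.exists
  exact hex t (exc_of hp5 hk6 hk7 hrat heul hinv (hL t) hn (hIP t).1 (hdat t).1
    (fun i j hij => ((hdat t).2.1 i j hij).1) hse ht hnt)

end Pool.Agent.Y734.N
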