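import Mathlib
import Pool.Agent.Y734.N.Lev

/-!
# Project Y734/N: the families with weights `rA`, `rB`, `rC`
-/

set_option autoImplicit false

namespace Pool.Agent.Y734.N.ALGA

open Pool.Agent.Y734.M Pool.Agent.Y734.N

variable {F : Type} [Field F] [CharZero F]

theorem edge_ne : ∀ (t : Fin 22) (k : Fin 5), (tm t k).1 ≠ (tm t k).2 := by decide

theorem vert (s : Fin 5 → ℤ) (t : Fin 22) :
    ∑ k, (s (tm t k).1 + s (tm t k).2) = 2 * ∑ i, s i := by
  fin_cases t <;> simp [tm, Fin.sum_univ_five] <;> ring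

theorem wt_ray {r e : Fin 5 → Fin 5 → ℤ} {k : ℤ} {s : Fin 5 → ℤ}
    (h : ∀ i j, i ≠ j → 2 * e i j = 2 * k * r i j + s i + s j) (t : Fin 22) :
    wt e t = k * wt r t + ∑ i, s i := by
  have h1 : 2 * wt e t = 2 * k * wt r t + ∑ k, (s (tm t k).1 + s (tm t k).2) := by
    unfold wt
    rw [Finset.mul_sum, Finset.mul_sum, ← Finset.sum_add_distrib]
    refine Finset.sum_congr rfl fun j _ => ?_
    rw [h _ _ (edge_ne t j)]
    ring
  rw [vert] at h1
  linarith

theorem levR {u : Fin 5 → Fin 5 → F} {r e : Fin 5 → Fin 5 → ℤ} (h : Fa u e) (hr : Ray r e) (m : ℤ) :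
    ∑ t ∈ Finset.univ.filter (fun t => wt r t = m), sg F t * mo u t = 0 := by
  obtain ⟨k, s, hk, hs⟩ := hr
  rw [Finset.sum_filter]
  refine Eq.trans (Finset.sum_congr rfl fun t _ => ?_) (lev h (k * m + ∑ i, s i))
  have : wt r t = m ↔ wt e t = k * m + ∑ i, s i := by
    rw [wt_ray hs t, add_left_inj, mul_right_inj' hk]
  simp only [this]

theorem algA (u : Fin 5 → Fin 5 → F) (e : Fin 5 → Fin 5 → ℤ) (hu : ∀ i j, i ≠ j → u i j ≠ 0)
    (h : Fa u e) (hr : Ray rA e) : HN u 0 2 3 4 = 0 := by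
  have g0 : u 0 4 ≠ 0 := hu _ _ (by decide)
  have g1 : u 1 4 ≠ 0 := hu _ _ (by decide)
  have g2 : u 2 4 ≠ 0 := hu _ _ (by decide)
  have g3 : u 3 4 ≠ 0 := hu _ _ (by decide)
  have ex : ∀ x y z : F, y ≠ 0 → z ≠ 0 → ∃ a, x = a * (y * z) := fun x y z hy hz =>
    ⟨x / (y * z), by field_simp⟩
  obtain ⟨a, ha⟩ := ex (u 0 1) (u 0 4) (u 1 4) g0 g1
  obtain ⟨b, hb⟩ := ex (u 0 2) (u 0 4) (u 2 4) g0 g2
  obtain ⟨c, hc⟩ := ex (u 0 3) (u 0 4) (u 3 4) g0 g3
  obtain ⟨A, hA⟩ := ex (u 2 3) (u 2 4) (u 3 4) g2 g3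
  obtain ⟨B, hB⟩ := ex (u 1 3) (u 1 4) (u 3 4) g1 g3
  obtain ⟨C, hC⟩ := ex (u 1 2) (u 1 4) (u 2 4) g1 g2
  have a0 : a ≠ 0 := by rintro rfl; exact hu 0 1 (by decide) (by rw [ha]; ring)
  have b0 : b ≠ 0 := by rintro rfl; exact hu 0 2 (by decide) (by rw [hb]; ring)
  have c0 : c ≠ 0 := by rintro rfl; exact hu 0 3 (by decide) (by rw [hc]; ring)
  have A0 : A ≠ 0 := by rintro rfl; exact hu 2 3 (by decide) (by rw [hA]; ring)
  have B0 : B ≠ 0 := by rintro rfl; exact hu 1 3 (by decide) (by rw [hB]; ring)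
  have C0 : C ≠ 0 := by rintro rfl; exact hu 1 2 (by decide) (by rw [hC]; ring)
  have G : (u 0 4 * u 1 4 * u 2 4 * u 3 4) ^ 2 ≠ 0 := by simp [g0, g1, g2, g3]
  have l0 := levR h hr 0
  have l1 := levR h hr 1
  have l2 := levR h hr 2
  rw [show Finset.univ.filter (fun t => wt rA t = 0) = {4, 5, 12, 18, 19} from by decide +kernel]
    at l0
  rw [show Finset.univ.filter (fun t => wt rA t = 1) = {0, 1, 2, 3, 7, 8, 9, 11, 13, 14, 20, 21}
    from by decide +kernel] at l1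
  rw [show Finset.univ.filter (fun t => wt rA t = 2) = {6, 10, 15, 16, 17} from by decide +kernel]
    at l2
  simp [Finset.sum_insert, sg, mo, tm, Fin.prod_univ_five] at l0 l1 l2
  rw [ha, hb, hc, hA] at l0
  rw [ha, hb, hc, hA, hB, hC] at l1
  rw [hb, hc, hA, hB, hC] at l2
  have m0 : a * A + (a - b) * (a - c) = 0 := by
    have : (u 0 4 * u 1 4 * u 2 4 * u 3 4) ^ 2 * (A * (a * A + (a - b) * (a - c))) = 0 := by
      linear_combination -l0
    rcases mul_eq_zero.1 this with h1 | h1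
    · exact absurd h1 G
    · exact (mul_eq_zero.1 h1).resolve_left A0
  have m1 : (a ^ 2 - b * c) * (C * (c - a) + B * (b - a)) = 0 := by
    have : (u 0 4 * u 1 4 * u 2 4 * u 3 4) ^ 2 *
        ((a ^ 2 - b * c) * (C * (c - a) + B * (b - a))) = 0 := by
      linear_combination a * l1 - (u 0 4 * u 1 4 * u 2 4 * u 3 4) ^ 2 *
        (a * C + a * B + b * B + c * C) * m0
    exact (mul_eq_zero.1 this).resolve_left G
  have m2 : (a * C - b * B) * (a * B - c * C) = 0 := by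
    have : (u 0 4 * u 1 4 * u 2 4 * u 3 4) ^ 2 *
        ((a * C - b * B) * (a * B - c * C)) = 0 := by
      linear_combination a * l2 + (u 0 4 * u 1 4 * u 2 4 * u 3 4) ^ 2 * (B * C) * m0
    exact (mul_eq_zero.1 this).resolve_left G
  have m3 : a ^ 2 = b * c := by
    rcases mul_eq_zero.1 m1 with h1 | h1
    · linear_combination h1
    · rcases mul_eq_zero.1 m2 with h2 | h2
      · have h3 : B * (a ^ 2 - b * c) = 0 := by linear_combination (c - a) * h2 - a * h1
        have := (mul_eq_zero.1 h3).resolve_left B0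
        linear_combination this
      · have h3 : C * (a ^ 2 - b * c) = 0 := by linear_combination (b - a) * h2 - a * h1
        have := (mul_eq_zero.1 h3).resolve_left C0
        linear_combination this
  have m4 : A = b + c - 2 * a := by
    have : a * (A - (b + c - 2 * a)) = 0 := by linear_combination m0 + m3
    have := (mul_eq_zero.1 this).resolve_left a0
    linear_combination this
  unfold HN
  rw [hb, hc, hA, m4]
  linear_combination (4 * (u 0 4 * u 2 4 * u 3 4) ^ 2) * m3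

theorem algB (u : Fin 5 → Fin 5 → F) (e : Fin 5 → Fin 5 → ℤ) (hu : ∀ i j, i ≠ j → u i j ≠ 0)
    (h : Fa u e) (hr : Ray rB e) : EU u 0 1 2 3 4 = 0 := by
  have l2 := levR h hr 2
  have l3 := levR h hr 3
  rw [show Finset.univ.filter (fun t => wt rB t = 2) = {1, 7, 10, 11}
    from by decide +kernel] at l2
  rw [show Finset.univ.filter (fun t => wt rB t = 3) = {14, 16} from by decide +kernel] at l3
  simp [Finset.sum_insert, sg, mo, tm, Fin.prod_univ_five] at l2 l3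
  have n : u 0 3 * u 1 2 ≠ 0 := mul_ne_zero (hu _ _ (by decide)) (hu _ _ (by decide))
  have key : u 0 3 * u 1 2 * EU u 0 1 2 3 4 = 0 := by
    unfold EU
    linear_combination l2 + l3
  exact (mul_eq_zero.1 key).resolve_left n

theorem algC (u : Fin 5 → Fin 5 → F) (e : Fin 5 → Fin 5 → ℤ) (hu : ∀ i j, i ≠ j → u i j ≠ 0)
    (h : Fa u e) (hr : Ray rC e) : EU u 0 1 2 3 4 = 0 := by
  have l0 := levR h hr 0
  have l3 := levR h hr 3
  rw [show Finset.univ.filter (fun t => wt rC t = 0) = {4, 12, 19} from by decide +kernel] at l0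
  rw [show Finset.univ.filter (fun t => wt rC t = 3) = {6, 13, 17} from by decide +kernel] at l3
  simp [Finset.sum_insert, sg, mo, tm, Fin.prod_univ_five] at l0 l3
  have n1 : u 0 1 * u 2 3 ≠ 0 := mul_ne_zero (hu _ _ (by decide)) (hu _ _ (by decide))
  have n2 : u 0 2 * u 1 3 ≠ 0 := mul_ne_zero (hu _ _ (by decide)) (hu _ _ (by decide))
  have k1 : u 0 1 * u 2 3 * (u 0 3 * u 1 4 * u 2 4 - u 0 1 * u 2 4 * u 3 4 -
      u 2 3 * u 0 4 * u 1 4) = 0 := by linear_combination l0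
  have k2 : u 0 2 * u 1 3 * (u 1 2 * u 0 4 * u 3 4 - u 0 2 * u 1 4 * u 3 4 -
      u 1 3 * u 0 4 * u 2 4) = 0 := by linear_combination l3
  have k1' := (mul_eq_zero.1 k1).resolve_left n1
  have k2' := (mul_eq_zero.1 k2).resolve_left n2
  unfold EU
  linear_combination -k1' - k2'

theorem alga (u : Fin 5 → Fin 5 → F) (e : Fin 5 → Fin 5 → ℤ) (hu : ∀ i j, i ≠ j → u i j ≠ 0)
    (h : Fa u e) : (Ray rA e → HN u 0 2 3 4 = 0) ∧ (Ray rB e → EU u 0 1 2 3 4 = 0) ∧
      (Ray rC e → EU u 0 1 2 3 4 = 0) :=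
  ⟨algA u e hu h, algB u e hu h, algC u e hu h⟩

end Pool.Agent.Y734.N.ALGA
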