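import Pool.Agent.Y734.N.Lev

/-!
# Project Y734/N: impossible families of monomials
-/

set_option autoImplicit false

namespace Pool.Agent.Y734.N.ALGB

open Pool.Agent.Y734.M Pool.Agent.Y734.N

variable {F : Type} [Field F] [CharZero F]

/-- the terms of `G5` with signs, in the gauge `u i 4 = 1` -/
def tv (a b c A B C : F) : Fin 22 → F :=
    ![a * C * A, a * C * c, a * B * A, a * B * b, a * A * c, a * A * b, b * C * B, b * C * c,
      b * A * B, b * B * c, c * B * C, c * A * C, -(a * a * A), -(b * b * B), -(c * c * C),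
      -(C * B * A), -(C * C * c), -(B * B * b), -(b * c * A), -(A * A * a), -(a * c * B),
      -(a * b * C)]

theorem sum22 {M : Type} [AddCommMonoid M] (f : Fin 22 → M) : ∑ t, f t = f 0 + f 1 + f 2 + f 3 + f 4 + f 5 + f 6 + f 7 + f 8 +
    f 9 + f 10 + f 11 + f 12 + f 13 + f 14 + f 15 + f 16 + f 17 + f 18 + f 19 + f 20 + f 21 := by
  simp only [Fin.sum_univ_succ, Fin.sum_univ_zero]
  simp only [add_assoc, add_zero]
  rfl

theorem gauge {u : Fin 5 → Fin 5 → F} (h0 : u 0 4 ≠ 0) (h1 : u 1 4 ≠ 0) (h2 : u 2 4 ≠ 0)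
    (h3 : u 3 4 ≠ 0) (t : Fin 22) : sg F t * mo u t = (u 0 4 * u 1 4 * u 2 4 * u 3 4) ^ 2 *
      tv (u 0 1 / (u 0 4 * u 1 4)) (u 0 2 / (u 0 4 * u 2 4)) (u 0 3 / (u 0 4 * u 3 4))
        (u 2 3 / (u 2 4 * u 3 4)) (u 1 3 / (u 1 4 * u 3 4)) (u 1 2 / (u 1 4 * u 2 4)) t := by
  fin_cases t <;> simp [sg, mo, tm, tv, Fin.prod_univ_five] <;> field_simp

theorem wt2 {e ρ : Fin 5 → Fin 5 → ℤ} {s : Fin 5 → ℤ}
    (h : ∀ i j, i ≠ j → 2 * e i j = ρ i j + s i + s j) (t : Fin 22) :
    2 * wt e t = wt ρ t + 2 * (s 0 + s 1 + s 2 + s 3 + s 4) := by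
  have h01 := h 0 1 (by decide)
  have h02 := h 0 2 (by decide)
  have h03 := h 0 3 (by decide)
  have h04 := h 0 4 (by decide)
  have h12 := h 1 2 (by decide)
  have h13 := h 1 3 (by decide)
  have h14 := h 1 4 (by decide)
  have h23 := h 2 3 (by decide)
  have h24 := h 2 4 (by decide)
  have h34 := h 3 4 (by decide)
  fin_cases t <;> simp [wt, tm, Fin.sum_univ_five] <;> linarith

/-- the values of the terms of a family of weights -/
def Lv (a b c A B C : F) (W : Fin 22 → ℤ) : Prop :=
  ∀ m : ℤ, ∑ t, (if W t = m then tv a b c A B C t else 0) = 0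

theorem lev2 {u : Fin 5 → Fin 5 → F} {e : Fin 5 → Fin 5 → ℤ} (hu : ∀ i j, i ≠ j → u i j ≠ 0)
    (h : Fa u e) : ∃ a b c A B C : F, (a ≠ 0 ∧ b ≠ 0 ∧ c ≠ 0 ∧ A ≠ 0 ∧ B ≠ 0 ∧ C ≠ 0) ∧
      Lv a b c A B C (wt e) := by
  have h0 := hu 0 4 (by decide)
  have h1 := hu 1 4 (by decide)
  have h2 := hu 2 4 (by decide)
  have h3 := hu 3 4 (by decide)
  refine ⟨_, _, _, _, _, _, ⟨div_ne_zero (hu 0 1 (by decide)) (mul_ne_zero h0 h1),
    div_ne_zero (hu 0 2 (by decide)) (mul_ne_zero h0 h2),
    div_ne_zero (hu 0 3 (by decide)) (mul_ne_zero h0 h3),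
    div_ne_zero (hu 2 3 (by decide)) (mul_ne_zero h2 h3),
    div_ne_zero (hu 1 3 (by decide)) (mul_ne_zero h1 h3),
    div_ne_zero (hu 1 2 (by decide)) (mul_ne_zero h1 h2)⟩, fun m => ?_⟩
  have h4 := lev h m
  have hg : (u 0 4 * u 1 4 * u 2 4 * u 3 4) ^ 2 ≠ 0 := by simp [h0, h1, h2, h3]
  refine (mul_eq_zero.1 (Eq.trans ?_ h4)).resolve_left hg
  rw [Finset.mul_sum]
  refine Finset.sum_congr rfl fun t _ => ?_
  rw [gauge h0 h1 h2 h3, mul_ite, mul_zero]

theorem lev3 {a b c A B C : F} {e ρ : Fin 5 → Fin 5 → ℤ} {s : Fin 5 → ℤ}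
    (h : ∀ i j, i ≠ j → 2 * e i j = ρ i j + s i + s j) (hL : Lv a b c A B C (wt e)) :
    Lv a b c A B C (wt ρ) := by
  intro m
  have h1 := wt2 h
  rcases Int.even_or_odd' m with ⟨n, rfl | rfl⟩
  · refine Eq.trans (Finset.sum_congr rfl fun t _ => ?_)
      (hL (n + (s 0 + s 1 + s 2 + s 3 + s 4)))
    have h2 := h1 t
    have h3 : (wt ρ t = 2 * n) ↔ (wt e t = n + (s 0 + s 1 + s 2 + s 3 + s 4)) := by omega
    by_cases h4 : wt ρ t = 2 * n
    · rw [if_pos h4, if_pos (h3.1 h4)]
    · rw [if_neg h4, if_neg (fun h5 => h4 (h3.2 h5))]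
  · refine Finset.sum_eq_zero fun t _ => ?_
    have h2 := h1 t
    rw [if_neg (by omega)]

theorem levR {a b c A B C : F} {e r : Fin 5 → Fin 5 → ℤ} (h : Ray r e)
    (hL : Lv a b c A B C (wt e)) : Lv a b c A B C (wt r) := by
  obtain ⟨k, s, hk, hs⟩ := h
  have h1 := lev3 (ρ := fun i j => 2 * k * r i j) hs hL
  intro m
  refine Eq.trans (Finset.sum_congr rfl fun t _ => ?_) (h1 (2 * k * m))
  have h2 : wt (fun i j => 2 * k * r i j) t = 2 * k * wt r t := by
    unfold wt
    rw [Finset.mul_sum]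
  have h3 : (wt (fun i j => 2 * k * r i j) t = 2 * k * m) ↔ wt r t = m := by
    rw [h2]
    have h4 : 2 * k ≠ 0 := mul_ne_zero two_ne_zero hk
    exact ⟨fun h => mul_left_cancel₀ h4 h, fun h => by rw [h]⟩
  by_cases h4 : wt r t = m
  · rw [if_pos h4, if_pos (h3.2 h4)]
  · rw [if_neg h4, if_neg (fun h5 => h4 (h3.1 h5))]

theorem wtD : wt rD =
    ![3, 4, 2, 1, 3, 1, 3, 4, 2, 3, 5, 5, 1, 1, 6, 4, 6, 2, 3, 2, 3, 2] := by
  funext t
  fin_cases t <;> rfl

theorem wtE : wt rE =
    ![1, 2, 2, 2, 1, 0, 3, 2, 2, 3, 4, 2, 0, 2, 3, 3, 3, 4, 1, 0, 3, 1] := by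
  funext t
  fin_cases t <;> rfl

theorem wtF : wt rF =
    ![2, 3, 2, 2, 1, 0, 4, 3, 2, 3, 5, 3, 0, 2, 4, 4, 5, 4, 1, 0, 3, 2] := by
  funext t
  fin_cases t <;> rfl

theorem wtG : wt rG =
    ![2, 4, 1, 2, 2, 1, 4, 5, 2, 4, 5, 4, 0, 3, 6, 3, 6, 3, 3, 0, 3, 3] := by
  funext t
  fin_cases t <;> rfl

theorem wtI (x y w : ℤ) : wt (fI x y w) =
    ![x + y + w, x + y + w, x + y + w, 2 * x + w, x + 2 * y, 2 * x + y, x + 2 * w, x + y + w,
      x + y + w, x + y + w, y + 2 * w, 2 * y + w, 2 * x + y, 2 * x + w, 2 * y + w, y + 2 * w,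
      y + 2 * w, x + 2 * w, x + 2 * y, x + 2 * y, x + y + w, 2 * x + w] := by
  funext t
  fin_cases t <;> simp [wt, tm, fI, Fin.sum_univ_five] <;> ring

theorem wtII (x y w : ℤ) : wt (fII x y w) =
    ![2 * x + w, x + 2 * w, 2 * x + y, x + 2 * y, 2 * x + w, 2 * x + y, 2 * y + w, y + 2 * w,
      x + 2 * y, 2 * y + w, y + 2 * w, x + 2 * w, 3 * x, 3 * y, 3 * w, x + y + w, 3 * w, 3 * y,
      x + y + w, 3 * x, x + y + w, x + y + w] := by
  funext t
  fin_cases t <;> simp [wt, tm, fII, Fin.sum_univ_five] <;> ring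

section cases

variable {a b c A B C : F} (ha : a ≠ 0) (hb : b ≠ 0) (hc : c ≠ 0) (hA : A ≠ 0) (hB : B ≠ 0)
  (hC : C ≠ 0)

include ha hc hA hC in
theorem caseD (h : Lv a b c A B C (wt rD)) : False := by
  have h6 := h 6
  have h5 := h 5
  have h4 := h 4
  have h3 := h 3
  have h2 := h 2
  rw [sum22, wtD] at h6 h5 h4 h3 h2
  simp [tv] at h6 h5 h4 h3 h2
  have e1 : C = -c := by
    have : c * C * (C + c) = 0 := by linear_combination -h6
    rcases mul_eq_zero.1 this with h | h
    · exact absurd h (mul_ne_zero hc hC)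
    · linear_combination h
  subst e1
  have e2 : B = -A := by
    have : c * (-c) * (B + A) = 0 := by linear_combination h5
    rcases mul_eq_zero.1 this with h | h
    · exact absurd h (mul_ne_zero hc hC)
    · linear_combination h
  subst e2
  have e3 : A ^ 2 + c * (a + b) = 0 := by
    have : c * (A ^ 2 + c * (a + b)) = 0 := by linear_combination -h4
    exact (mul_eq_zero.1 this).resolve_left hc
  have e4 : a = b := by
    have : c * A * (a - b) = 0 := by linear_combination h3
    rcases mul_eq_zero.1 this with h | h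
    · exact absurd h (mul_ne_zero hc hA)
    · linear_combination h
  subst e4
  have e5 : 9 * (a ^ 2 * c) = 0 := by linear_combination h2 + 4 * a * e3
  have e6 : a ^ 2 * c ≠ 0 := mul_ne_zero (pow_ne_zero 2 ha) hc
  exact e6 (by linear_combination (1 / 9) * e5)

include ha hc hA hB in
theorem caseE (h : Lv a b c A B C (wt rE)) : False := by
  have h0 := h 0
  have h1 := h 1
  have h2 := h 2
  have h3 := h 3
  have h4 := h 4
  rw [sum22, wtE] at h0 h1 h2 h3 h4
  simp [tv] at h0 h1 h2 h3 h4
  have e1 : b = a + A := by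
    have : a * A * (b - A - a) = 0 := by linear_combination h0
    rcases mul_eq_zero.1 this with h | h
    · exact absurd h (mul_ne_zero ha hA)
    · linear_combination h
  have e2 : c * C = b * B := by
    have : B * (c * C - b * B) = 0 := by linear_combination h4
    have := (mul_eq_zero.1 this).resolve_left hB
    linear_combination this
  have e3 : a ^ 2 * C + A ^ 2 * c = 0 := by
    rw [e1] at h1
    linear_combination -h1
  have e4 : 2 * b ^ 2 + a * A = 0 := by
    have : B * (2 * b ^ 2 + a * A) = 0 := by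
      have h5 : B * (2 * b * (a + A) + a * A) = 0 := by
        linear_combination h2 - (a + b + A) * e2
      rw [← e1] at h5
      linear_combination h5
    exact (mul_eq_zero.1 this).resolve_left hB
  have e5 : C * A + a * c = 0 := by
    have : B * (C * A + a * c) = 0 := by linear_combination -h3 - (C + c) * e2
    exact (mul_eq_zero.1 this).resolve_left hB
  have e6 : A ^ 3 = a ^ 3 := by
    have : c * (A ^ 3 - a ^ 3) = 0 := by linear_combination A * e3 - a ^ 2 * e5
    have := (mul_eq_zero.1 this).resolve_left hc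
    linear_combination this
  rw [e1] at e4
  have e7 : (2 * a + A) * (a + 2 * A) = 0 := by linear_combination e4
  have h3' : a ^ 3 ≠ 0 := pow_ne_zero 3 ha
  have h3'' : A ^ 3 ≠ 0 := pow_ne_zero 3 hA
  rcases mul_eq_zero.1 e7 with h | h
  · have : A = -2 * a := by linear_combination h
    rw [this] at e6
    apply h3'
    linear_combination -(1 / 9) * e6
  · have : a = -2 * A := by linear_combination h
    rw [this] at e6
    apply h3''
    linear_combination (1 / 9) * e6

include ha hc hA in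
theorem caseF (h : Lv a b c A B C (wt rF)) : False := by
  have h0 := h 0
  have h1 := h 1
  rw [sum22, wtF] at h0 h1
  simp [tv] at h0 h1
  have e1 : b - A - a = 0 := by
    have : a * A * (b - A - a) = 0 := by linear_combination h0
    exact (mul_eq_zero.1 this).resolve_left (mul_ne_zero ha hA)
  have e2 : a - b = 0 := by
    have : c * A * (a - b) = 0 := by linear_combination h1
    exact (mul_eq_zero.1 this).resolve_left (mul_ne_zero hc hA)
  exact hA (by linear_combination -e1 - e2)

include ha hb hc hA hC in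
theorem caseG (h : Lv a b c A B C (wt rG)) : False := by
  have h0 := h 0
  have h6 := h 6
  have h5 := h 5
  have h3 := h 3
  rw [sum22, wtG] at h0 h6 h5 h3
  simp [tv] at h0 h6 h5 h3
  have e1 : A = -a := by
    have : a * A * (A + a) = 0 := by linear_combination -h0
    have := (mul_eq_zero.1 this).resolve_left (mul_ne_zero ha hA)
    linear_combination this
  have e2 : C = -c := by
    have : c * C * (C + c) = 0 := by linear_combination -h6
    have := (mul_eq_zero.1 this).resolve_left (mul_ne_zero hc hC)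
    linear_combination this
  have e3 : B = -b := by
    have : c * C * (B + b) = 0 := by linear_combination h5
    have := (mul_eq_zero.1 this).resolve_left (mul_ne_zero hc hC)
    linear_combination this
  subst e1 e2 e3
  have e4 : a * b * c ≠ 0 := mul_ne_zero (mul_ne_zero ha hb) hc
  exact e4 (by linear_combination (1 / 4) * h3)

include hc hC in
theorem caseI {x y w : ℤ} (hN : NonAP x y w) (h : Lv a b c A B C (wt (fI x y w))) : False := by
  obtain ⟨n1, n2, n3, n4, n5, n6⟩ := hN
  have h1 := h (2 * y + w)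
  have h2 := h (y + 2 * w)
  rw [sum22, wtI] at h1 h2
  have a1 : ¬ (y + 2 * w = 2 * y + w) := by omega
  have a2 : ¬ (x + 2 * w = 2 * y + w) := by omega
  have a3 : ¬ (x + y + w = 2 * y + w) := by omega
  have a4 : ¬ (x + 2 * y = 2 * y + w) := by omega
  have a5 : ¬ (2 * x + w = 2 * y + w) := by omega
  have a6 : ¬ (2 * x + y = 2 * y + w) := by omega
  have b1 : ¬ (2 * y + w = y + 2 * w) := by omega
  have b2 : ¬ (x + 2 * w = y + 2 * w) := by omega
  have b3 : ¬ (x + y + w = y + 2 * w) := by omega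
  have b4 : ¬ (x + 2 * y = y + 2 * w) := by omega
  have b5 : ¬ (2 * x + w = y + 2 * w) := by omega
  have b6 : ¬ (2 * x + y = y + 2 * w) := by omega
  simp [tv, a1, a2, a3, a4, a5, a6, -add_left_inj, -add_right_inj] at h1
  simp [tv, b1, b2, b3, b4, b5, b6, -add_left_inj, -add_right_inj] at h2
  have e1 : A = c := by
    have : c * C * (A - c) = 0 := by linear_combination h1
    have := (mul_eq_zero.1 this).resolve_left (mul_ne_zero hc hC)
    linear_combination this
  subst e1
  have e2 : C ^ 2 * A ≠ 0 := mul_ne_zero (pow_ne_zero 2 hC) hc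
  exact e2 (by linear_combination -h2)

include ha hb hc hA hB hC in
theorem caseII {x y w : ℤ} (hN : NonAP x y w) (h : Lv a b c A B C (wt (fII x y w))) : False := by
  obtain ⟨n1, n2, n3, n4, n5, n6⟩ := hN
  have eA : a + A = 0 := by
    by_cases h0 : x + 2 * y = 3 * w
    · have h1 := h (x + 2 * w)
      rw [sum22, wtII] at h1
      have a1 : ¬ (3 * w = x + 2 * w) := by omega
      have a2 : ¬ (y + 2 * w = x + 2 * w) := by omega
      have a3 : ¬ (2 * y + w = x + 2 * w) := by omega
      have a4 : ¬ (3 * y = x + 2 * w) := by omega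
      have a5 : ¬ (x + y + w = x + 2 * w) := by omega
      have a6 : ¬ (x + 2 * y = x + 2 * w) := by omega
      have a7 : ¬ (2 * x + w = x + 2 * w) := by omega
      have a8 : ¬ (2 * x + y = x + 2 * w) := by omega
      have a9 : ¬ (3 * x = x + 2 * w) := by omega
      simp [tv, a1, a2, a3, a4, a5, a6, a7, a8, a9, -add_left_inj, -add_right_inj] at h1
      have : c * C * (a + A) = 0 := by linear_combination h1
      exact (mul_eq_zero.1 this).resolve_left (mul_ne_zero hc hC)
    · have h1 := h (x + 2 * y)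
      rw [sum22, wtII] at h1
      have a1 : ¬ (3 * w = x + 2 * y) := by omega
      have a2 : ¬ (y + 2 * w = x + 2 * y) := by omega
      have a3 : ¬ (2 * y + w = x + 2 * y) := by omega
      have a4 : ¬ (3 * y = x + 2 * y) := by omega
      have a5 : ¬ (x + y + w = x + 2 * y) := by omega
      have a6 : ¬ (x + 2 * w = x + 2 * y) := by omega
      have a7 : ¬ (2 * x + w = x + 2 * y) := by omega
      have a8 : ¬ (2 * x + y = x + 2 * y) := by omega
      have a9 : ¬ (3 * x = x + 2 * y) := by omega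
      simp [tv, a1, a2, a3, a4, a5, a6, a7, a8, a9, -add_left_inj, -add_right_inj] at h1
      have : b * B * (a + A) = 0 := by linear_combination h1
      exact (mul_eq_zero.1 this).resolve_left (mul_ne_zero hb hB)
  have eB : b + B = 0 := by
    by_cases h0 : 2 * x + y = 3 * w
    · have h1 := h (y + 2 * w)
      rw [sum22, wtII] at h1
      have a1 : ¬ (3 * w = y + 2 * w) := by omega
      have a2 : ¬ (x + 2 * w = y + 2 * w) := by omega
      have a3 : ¬ (2 * y + w = y + 2 * w) := by omega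
      have a4 : ¬ (3 * y = y + 2 * w) := by omega
      have a5 : ¬ (x + y + w = y + 2 * w) := by omega
      have a6 : ¬ (x + 2 * y = y + 2 * w) := by omega
      have a7 : ¬ (2 * x + w = y + 2 * w) := by omega
      have a8 : ¬ (2 * x + y = y + 2 * w) := by omega
      have a9 : ¬ (3 * x = y + 2 * w) := by omega
      simp [tv, a1, a2, a3, a4, a5, a6, a7, a8, a9, -add_left_inj, -add_right_inj] at h1
      have : c * C * (b + B) = 0 := by linear_combination h1
      exact (mul_eq_zero.1 this).resolve_left (mul_ne_zero hc hC)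
    · have h1 := h (2 * x + y)
      rw [sum22, wtII] at h1
      have a1 : ¬ (3 * w = 2 * x + y) := by omega
      have a2 : ¬ (y + 2 * w = 2 * x + y) := by omega
      have a3 : ¬ (2 * y + w = 2 * x + y) := by omega
      have a4 : ¬ (3 * y = 2 * x + y) := by omega
      have a5 : ¬ (x + y + w = 2 * x + y) := by omega
      have a6 : ¬ (x + 2 * w = 2 * x + y) := by omega
      have a7 : ¬ (2 * x + w = 2 * x + y) := by omega
      have a8 : ¬ (x + 2 * y = 2 * x + y) := by omega
      have a9 : ¬ (3 * x = 2 * x + y) := by omega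
      simp [tv, a1, a2, a3, a4, a5, a6, a7, a8, a9, -add_left_inj, -add_right_inj] at h1
      have : a * A * (b + B) = 0 := by linear_combination h1
      exact (mul_eq_zero.1 this).resolve_left (mul_ne_zero ha hA)
  have eC : c + C = 0 := by
    by_cases h0 : 2 * x + w = 3 * y
    · have h1 := h (2 * y + w)
      rw [sum22, wtII] at h1
      have a1 : ¬ (3 * w = 2 * y + w) := by omega
      have a2 : ¬ (x + 2 * w = 2 * y + w) := by omega
      have a3 : ¬ (y + 2 * w = 2 * y + w) := by omega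
      have a4 : ¬ (3 * y = 2 * y + w) := by omega
      have a5 : ¬ (x + y + w = 2 * y + w) := by omega
      have a6 : ¬ (x + 2 * y = 2 * y + w) := by omega
      have a7 : ¬ (2 * x + w = 2 * y + w) := by omega
      have a8 : ¬ (2 * x + y = 2 * y + w) := by omega
      have a9 : ¬ (3 * x = 2 * y + w) := by omega
      simp [tv, a1, a2, a3, a4, a5, a6, a7, a8, a9, -add_left_inj, -add_right_inj] at h1
      have : b * B * (c + C) = 0 := by linear_combination h1
      exact (mul_eq_zero.1 this).resolve_left (mul_ne_zero hb hB)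
    · have h1 := h (2 * x + w)
      rw [sum22, wtII] at h1
      have a1 : ¬ (3 * w = 2 * x + w) := by omega
      have a2 : ¬ (y + 2 * w = 2 * x + w) := by omega
      have a3 : ¬ (2 * y + w = 2 * x + w) := by omega
      have a4 : ¬ (3 * y = 2 * x + w) := by omega
      have a5 : ¬ (x + y + w = 2 * x + w) := by omega
      have a6 : ¬ (x + 2 * w = 2 * x + w) := by omega
      have a7 : ¬ (2 * x + y = 2 * x + w) := by omega
      have a8 : ¬ (x + 2 * y = 2 * x + w) := by omega
      have a9 : ¬ (3 * x = 2 * x + w) := by omega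
      simp [tv, a1, a2, a3, a4, a5, a6, a7, a8, a9, -add_left_inj, -add_right_inj] at h1
      have : a * A * (c + C) = 0 := by linear_combination h1
      exact (mul_eq_zero.1 this).resolve_left (mul_ne_zero ha hA)
  have h1 := h (x + y + w)
  rw [sum22, wtII] at h1
  have a1 : ¬ (3 * w = x + y + w) := by omega
  have a2 : ¬ (y + 2 * w = x + y + w) := by omega
  have a3 : ¬ (2 * y + w = x + y + w) := by omega
  have a4 : ¬ (3 * y = x + y + w) := by omega
  have a5 : ¬ (x + 2 * w = x + y + w) := by omega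
  have a6 : ¬ (x + 2 * y = x + y + w) := by omega
  have a7 : ¬ (2 * x + w = x + y + w) := by omega
  have a8 : ¬ (2 * x + y = x + y + w) := by omega
  have a9 : ¬ (3 * x = x + y + w) := by omega
  simp [tv, a1, a2, a3, a4, a5, a6, a7, a8, a9, -add_left_inj, -add_right_inj] at h1
  have e1 : A = -a := by linear_combination eA
  have e2 : B = -b := by linear_combination eB
  have e3 : C = -c := by linear_combination eC
  subst e1 e2 e3
  have e4 : a * b * c ≠ 0 := mul_ne_zero (mul_ne_zero ha hb) hc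
  exact e4 (by linear_combination (1 / 4) * h1)

end cases

/-- **Y734/M-ALGB** -/
theorem algb (u : Fin 5 → Fin 5 → F) (e : Fin 5 → Fin 5 → ℤ) (hu : ∀ i j, i ≠ j → u i j ≠ 0)
    (h : Fa u e) :
    ¬ Ray rD e ∧ ¬ Ray rE e ∧ ¬ Ray rF e ∧ ¬ Ray rG e ∧ ¬ Pl fI e ∧ ¬ Pl fII e := by
  obtain ⟨a, b, c, A, B, C, ⟨ha, hb, hc, hA, hB, hC⟩, hL⟩ := lev2 hu h
  refine ⟨fun h1 => caseD ha hc hA hC (levR h1 hL), fun h1 => caseE ha hc hA hB (levR h1 hL),
    fun h1 => caseF ha hc hA (levR h1 hL), fun h1 => caseG ha hb hc hA hC (levR h1 hL), ?_, ?_⟩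
  · rintro ⟨x, y, w, s, hN, hs⟩
    exact caseI hc hC hN (lev3 hs hL)
  · rintro ⟨x, y, w, s, hN, hs⟩
    exact caseII ha hb hc hA hB hC hN (lev3 hs hL)

end Pool.Agent.Y734.N.ALGB
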