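import Mathlib
import Pool.Agent.Y734.M.Asm
import Pool.Agent.Y734.M.G5N.Main
import Pool.Agent.Y734.N.AlgA
import Pool.Agent.Y734.N.AlgB

/-!
# Project Y734/N: the classification for five points
-/

set_option autoImplicit false

namespace Pool.Agent.Y734.N

open NumberField Filter Pool.Agent.Y734.M

variable {F : Type} [Field F] [CharZero F]

theorem G5_perm (u : Fin 5 → Fin 5 → F) (hu : Sy u)
    (σ : Equiv.Perm (Fin 5)) : G5 (pull u σ) = G5 u := by
  set v : Fin 5 → Fin 5 → F := fun i j => if i = j then 0 else u i j with hv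
  have hvs : Sy v := by
    intro i j
    simp only [hv]
    by_cases h : i = j
    · rw [if_pos h, if_pos h.symm]
    · rw [if_neg h, if_neg fun h' => h h'.symm, hu i j]
  have h1 := Pool.Agent.Y734.M.G5N.det_g5 v hvs (fun i => by simp [hv])
  have h2 := Pool.Agent.Y734.M.G5N.det_g5 (pull v σ) (fun i j => hvs _ _) (fun i => by simp [pull, hv])
  have h3 : Matrix.of (pull v σ) = (Matrix.of v).submatrix σ σ := by
    ext i j; rfl
  rw [h3, Matrix.det_submatrix_equiv_self, h1] at h2
  have h4 : G5 v = G5 u := G5_congr fun i j hij => by simp only [hv, if_neg hij]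
  have h5 : G5 (pull v σ) = G5 (pull u σ) := G5_congr fun i j hij => by
    simp only [pull, hv]
    rw [if_neg fun h => hij (σ.injective h)]
  rw [← h4, ← h5]
  exact (mul_left_cancel₀ two_ne_zero h2).symm

theorem Fa_perm {u : Fin 5 → Fin 5 → F} {e : Fin 5 → Fin 5 → ℤ} (hu : Sy u)
    (he : Sy e) (h : Fa u e) (σ : Equiv.Perm (Fin 5)) : Fa (pull u σ) (pull e σ) := by
  intro z hz
  have h1 := G5_perm (fun i j => u i j * z ^ e i j)
    (fun i j => by simp only [hu i j, he i j]) σ
  rw [h z hz] at h1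
  exact h1

/-- The classification for five points. -/
theorem p5 (hp : PairStmt) : P5Stmt := by
  intro F _ _ u e hsu hu hse hF
  rcases hp e hse (lev_pair hu hF) with h | ⟨σ, h⟩
  · exact Or.inl h
  refine Or.inr ⟨σ, ?_⟩
  have hu' : ∀ i j, i ≠ j → pull u σ i j ≠ 0 := fun i j hij =>
    hu _ _ fun h' => hij (σ.injective h')
  have hF' := Fa_perm hsu hse hF σ
  obtain ⟨a1, a2, a3⟩ := ALGA.alga _ _ hu' hF'
  obtain ⟨b1, b2, b3, b4, b5, b6⟩ := ALGB.algb _ _ hu' hF'
  rcases h with h | h | h | h | h | h | h | h | h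
  · exact Or.inl ⟨h, a1 h⟩
  · exact Or.inr ⟨Or.inl h, a2 h⟩
  · exact Or.inr ⟨Or.inr h, a3 h⟩
  · exact absurd h b1
  · exact absurd h b2
  · exact absurd h b3
  · exact absurd h b4
  · exact absurd h b5
  · exact absurd h b6

end Pool.Agent.Y734.N
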