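import Mathlib
import Pool.Agent.Y734.M.Sharp

/-!
# Project Y734/N: infinitely many quadratic integral points for five and six points

The points `0, ∞, 1, -1, x, -x` with `x ^ 2 = 2 ^ j x + 1` are integral outside of `2`.
-/

set_option autoImplicit false

namespace Pool.Agent.Y734.N

open NumberField Pool.Agent.Y734.M

/-- a number field has an element which is not a square -/
theorem exists_nonsquare (k : Type) [Field k] [NumberField k] : ∃ a : k, ∀ r : k, r ^ 2 ≠ a := by
  obtain ⟨v⟩ : Nonempty (IsDedekindDomain.HeightOneSpectrum (𝓞 k)) := by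
    obtain ⟨M, hM⟩ := Ideal.exists_maximal (𝓞 k)
    refine ⟨⟨M, hM.isPrime, ?_⟩⟩
    exact Ring.ne_bot_of_isMaximal_of_not_isField hM (RingOfIntegers.not_isField k)
  obtain ⟨π, hπ⟩ := v.valuation_exists_uniformizer k
  refine ⟨π, fun r hr => ?_⟩
  rw [← hr, map_pow] at hπ
  have h0 : v.valuation k r ≠ 0 := by
    intro h
    rw [h, zero_pow two_ne_zero] at hπ
    exact WithZero.exp_ne_zero hπ.symm
  obtain ⟨m, hm⟩ := WithZero.ne_zero_iff_exists.1 h0
  rw [← hm] at hπ
  have h1 : m ^ 2 = Multiplicative.ofAdd (-1) := by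
    have : ((m ^ 2 : Multiplicative ℤ) : WithZero (Multiplicative ℤ)) =
        ((Multiplicative.ofAdd (-1) : Multiplicative ℤ) : WithZero (Multiplicative ℤ)) := by
      rw [WithZero.coe_pow]
      exact hπ
    exact WithZero.coe_injective this
  have h2 := congrArg Multiplicative.toAdd h1
  simp at h2
  omega

/-- the quadratic algebra as a quadratic extension -/
theorem exists_quad (k : Type) [Field k] [NumberField k] (a b : k)
    (h : ∀ r : k, r ^ 2 ≠ a + b * r) : ∃ (L : Type) (_ : Field L) (_ : NumberField L)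
      (_ : Algebra k L) (x : L), Module.finrank k L = 2 ∧
        x ^ 2 = algebraMap k L a + algebraMap k L b * x := by
  have : Fact (∀ r : k, r ^ 2 ≠ a + b * r) := ⟨h⟩
  have hc : CharZero (QuadraticAlgebra k a b) := inferInstance
  have hfin : Module.finrank k (QuadraticAlgebra k a b) = 2 := by
    rw [← QuadraticAlgebra.finrank_eq_two (R := k) a b]
  have hf : FiniteDimensional k (QuadraticAlgebra k a b) :=
    Module.finite_of_finrank_pos (by rw [hfin]; norm_num)
  have hf' : FiniteDimensional ℚ (QuadraticAlgebra k a b) :=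
    Module.Finite.trans k (QuadraticAlgebra k a b)
  refine ⟨QuadraticAlgebra k a b, inferInstance, ⟨⟩, inferInstance, QuadraticAlgebra.omega, hfin, ?_⟩
  rw [pow_two]
  exact QuadraticAlgebra.omega_mul_omega_eq_algebraMap (R := k) (a := a) (b := b)

/-- a quadratic extension generated by a root of `x ^ 2 = 2 ^ j x + 1`, or which contains such a
root. -/
theorem exists_fld' (k : Type) [Field k] [NumberField k] (j : ℕ) :
    ∃ (L : Type) (_ : Field L) (_ : NumberField L) (_ : Algebra k L) (x : L),
      Module.finrank k L = 2 ∧ x ^ 2 = 2 ^ j * x + 1 := by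
  by_cases h : ∃ r : k, r ^ 2 = 2 ^ j * r + 1
  · obtain ⟨r, hr⟩ := h
    obtain ⟨a, ha⟩ := exists_nonsquare k
    obtain ⟨L, iF, iN, iA, x, hL, -⟩ := exists_quad k a 0 (fun r => by simpa using ha r)
    refine ⟨L, iF, iN, iA, algebraMap k L r, hL, ?_⟩
    rw [← map_pow, hr, map_add, map_mul, map_pow, map_ofNat, map_one]
  · push Not at h
    obtain ⟨L, iF, iN, iA, x, hL, hx⟩ := exists_quad k 1 (2 ^ j)
      (fun r => by rw [add_comm]; exact h r)
    refine ⟨L, iF, iN, iA, x, hL, ?_⟩
    rw [hx, map_pow, map_ofNat, map_one, add_comm]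

/-- For `n = 5` and `n = 6` there are infinitely many quadratic points of `M_{0,n}` which are
integral outside of `2`. -/
theorem sharp (k : Type) [Field k] [NumberField k] (n : ℕ) (hn : 5 ≤ n) (hn' : n ≤ 6) :
    Set.Infinite {c : Fin n → Fin n → Fin n → Fin n → ℂ |
      ∃ (L : Type) (_ : Field L) (_ : NumberField L) (_ : Algebra k L) (P : Fin n → Fin 2 → L)
        (φ : L →+* ℂ),
        Module.finrank k L = 2 ∧ IP {2} P ∧ c = fun i j k l => φ (cr P i j k l)} := by
  choose L iF iN iA x hL hx using exists_fld' k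
  have hφ : ∀ k, Nonempty (L k →+* ℂ) := fun k => inferInstance
  let φ : ∀ k, L k →+* ℂ := fun k => (hφ k).some
  let f : Fin n → Fin 6 := Fin.castLE hn'
  have hf : Function.Injective f := Fin.castLE_injective hn'
  refine Set.infinite_of_injective_forall_mem
    (f := fun k => fun i j l m => φ k (cr (fun i => pts (x k) (f i)) i j l m)) ?_ ?_
  · intro k k' hkk
    have h1 : (φ k (x k))⁻¹ = (φ k' (x k'))⁻¹ := by
      have h2 := congrFun (congrFun (congrFun (congrFun hkk ⟨0, by omega⟩) ⟨2, by omega⟩)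
        ⟨4, by omega⟩) ⟨1, by omega⟩
      have h3 : ∀ k, φ k (cr (fun i => pts (x k) (f i)) ⟨0, by omega⟩ ⟨2, by omega⟩
          ⟨4, by omega⟩ ⟨1, by omega⟩) = (φ k (x k))⁻¹ := by
        intro k
        rw [← map_inv₀]
        congr 1
        have e0 : f ⟨0, by omega⟩ = 0 := rfl
        have e1 : f ⟨1, by omega⟩ = 1 := rfl
        have e2 : f ⟨2, by omega⟩ = 2 := rfl
        have e4 : f ⟨4, by omega⟩ = 4 := rfl
        simp only [cr, e0, e1, e2, e4]
        simp only [dt, pts, Matrix.cons_val_zero, Matrix.cons_val_one, Matrix.cons_val]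
        have h0 := (su_x (hx k) {2}).1
        field_simp
        ring
      simpa only [h3] using h2
    have h2 : φ k (x k) = φ k' (x k') := inv_injective h1
    have h3 : ∀ k, (φ k (x k)) ^ 2 = 2 ^ k * φ k (x k) + 1 := by
      intro k
      have h4 := congrArg (φ k) (hx k)
      rw [map_add, map_mul, map_pow, map_pow, map_one, map_ofNat (φ k) 2] at h4
      exact h4
    have h4 : φ k (x k) ≠ 0 := (map_ne_zero (φ k)).2 (su_x (hx k) {2}).1
    have h5 : ((2 : ℂ) ^ k - 2 ^ k') * φ k (x k) = 0 := by
      have e1 := h3 k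
      have e2 := h3 k'
      rw [← h2] at e2
      linear_combination e2 - e1
    rcases mul_eq_zero.1 h5 with h | h
    · have h6 : ((2 ^ k : ℕ) : ℂ) = ((2 ^ k' : ℕ) : ℂ) := by
        push_cast
        exact sub_eq_zero.1 h
      exact Nat.pow_right_injective le_rfl (Nat.cast_injective h6)
    · exact absurd h h4
  · intro j
    exact ⟨L j, iF j, iN j, iA j, _, φ j, hL j, ip_pts (hx j) f hf, rfl⟩

end Pool.Agent.Y734.N
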